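import Pool.Agent.H13.EC.M1

/-!
# EC-R4, end game: from the integrated rigidity inequality to the mass of the good set

`good_mass_of_rig`: let `Y1 = y1^(κ-q+1) PP(y1)`, `Yb = b^(κ-q+1) PP(b)`, `I = I1`.  Assume
`(1 - 4 m0^2) int W |c|^2 ≤ C int W |Q| + C (Y1 + Yb)`.  The moments give
`int W Q = K I + bdry`, `K = (a - m0)^2 + a/p - 1/4`, `a = ν/p`; with `κ = q^2/4 + e`: `a - m0 = e/p + e/q`,
`a/p - 1/4 = e/p^2`, so `|K| ≤ 2 |e|` for `|e| ≤ 1/100`, and `|bdry| ≤ 10 (Y1 + Yb)`.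
-/

set_option autoImplicit false

open Set Metric MeasureTheory

namespace H26.EC

open H62.CJ H13.EC

theorem int_lin3 {α : Type*} [MeasurableSpace α] (μ : Measure α) (f g h : α → ℝ) (a b : ℝ)
    (hf : Integrable f μ) (hg : Integrable g μ) (hh : Integrable h μ) :
    ∫ x, (f x + a * g x + b * h x) ∂μ = ∫ x, f x ∂μ + a * ∫ x, g x ∂μ + b * ∫ x, h x ∂μ := by
  have h1 : Integrable (fun x => f x + a * g x) μ := hf.add (hg.const_mul a)
  rw [integral_add h1 (hh.const_mul b), integral_add hf (hg.const_mul a), integral_const_mul,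
    integral_const_mul]

/-- `|c|^2 = |A|^2 - 2 m0 Im A + m0^2` -/
theorem cc_sq (F : ℂ → ℂ) (q κ : ℝ) (z : ℂ) :
    ‖cc F q κ z‖ ^ 2 = ‖AA F z‖ ^ 2 - 2 * mz q κ * (AA F z).im + mz q κ ^ 2 := by
  unfold cc
  rw [← Complex.normSq_eq_norm_sq, ← Complex.normSq_eq_norm_sq, Complex.normSq_apply,
    Complex.normSq_apply]
  simp
  ring

theorem QQ_eq (F : ℂ → ℂ) (q κ : ℝ) (z : ℂ) :
    QQ F q κ z = ‖AA F z‖ ^ 2 - 2 * mz q κ * (AA F z).im + (mz q κ ^ 2 - 1 / 4) := by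
  unfold QQ
  rw [cc_sq]
  ring

theorem cont_QQ (F : ℂ → ℂ) (M : ℝ) (hF : Cls F M) (q κ : ℝ) : ContinuousOn (QQ F q κ) HP := by
  have h1 := cont_AA F M hF
  have h2 : ContinuousOn (fun z => ‖AA F z‖ ^ 2 - 2 * mz q κ * (AA F z).im +
      (mz q κ ^ 2 - 1 / 4)) HP :=
    ((h1.norm.pow 2).sub ((continuousOn_const (c := 2 * mz q κ)).mul
      (Complex.continuous_im.comp_continuousOn h1))).add continuousOn_const
  exact h2.congr fun z _ => QQ_eq F q κ z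

theorem meas_Good (F : ℂ → ℂ) (q κ η : ℝ) :
    MeasurableSet {p : ℝ × ℝ | ‖cc F q κ (pt p.1 p.2)‖ ≤ 1 / 2 - η} := by
  have h0 : Measurable (AA F) := by
    have h1 : Measurable (deriv F) := measurable_deriv F
    have h2 : Measurable (deriv (deriv F)) := measurable_deriv _
    exact ((Complex.measurable_ofReal.comp Complex.measurable_im).mul h2).div h1
  have h1 : Measurable (cc F q κ) := by
    unfold cc
    exact h0.sub_const _
  have h2 : Measurable (fun p : ℝ × ℝ => pt p.1 p.2) :=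
    (show Continuous (fun p : ℝ × ℝ => pt p.1 p.2) from P1_pt_cont).measurable
  exact measurableSet_le ((h1.comp h2).norm) measurable_const

theorem WW_nonneg (F : ℂ → ℂ) (q κ : ℝ) (z : ℂ) (hz : 0 < z.im) : 0 ≤ WW F q κ z := by
  unfold WW
  positivity

/-- the moment of `Q` -/
theorem mom_QQ (F : ℂ → ℂ) (M : ℝ) (hF : Cls F M) (q κ x0 y1 b : ℝ) (hq : q < 1)
    (hy1 : 0 < y1) (hb : y1 ≤ b) :
    ∫ p in RC x0 y1 b, WW F q κ (pt p.1 p.2) * QQ F q κ (pt p.1 p.2) =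
      (1 / (2 - q) * (y1 ^ (κ - q + 1) * B1 F (2 - q) y1 - b ^ (κ - q + 1) * B1 F (2 - q) b) +
      (κ - q + 2) / (2 - q) *
        (1 / (2 - q) * (y1 ^ (κ - q + 1) * PP F (2 - q) y1 - b ^ (κ - q + 1) * PP F (2 - q) b) +
        (κ - q + 1) / (2 - q) * I1 F q κ y1 b)) -
      2 * mz q κ *
       (1 / (2 - q) * (y1 ^ (κ - q + 1) * PP F (2 - q) y1 - b ^ (κ - q + 1) * PP F (2 - q) b) +
      (κ - q + 1) / (2 - q) * I1 F q κ y1 b) + (mz q κ ^ 2 - 1 / 4) * I1 F q κ y1 b := by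
  rw [← mom_sq F M hF q κ x0 y1 b hq hy1 hb, ← mom_im F M hF q κ x0 y1 b hq hy1 hb,
    ← mom0 F M hF q κ x0 y1 b hy1 hb]
  have hW := cont_WW F M hF q κ
  have hA := cont_AA F M hF
  have i1 := rc_integrable (fun z => WW F q κ z * ‖AA F z‖ ^ 2) (hW.mul (hA.norm.pow 2)) x0 y1 b hy1
  have i2 := rc_integrable (fun z => WW F q κ z * (AA F z).im)
    (hW.mul (Complex.continuous_im.comp_continuousOn hA)) x0 y1 b hy1
  have i3 := rc_integrable (fun z => WW F q κ z) hW x0 y1 b hy1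
  have hl := int_lin3 (volume.restrict (RC x0 y1 b)) _ _ _ (-(2 * mz q κ)) (mz q κ ^ 2 - 1 / 4) i1 i2 i3
  rw [neg_mul, ← sub_eq_add_neg] at hl
  rw [← hl]
  refine integral_congr_ae (Filter.Eventually.of_forall fun p => ?_)
  simp only [QQ_eq]
  ring

theorem coef_small (q e : ℝ) (hq : 9 / 10 ≤ q) (hq1 : q < 1) (he : |e| ≤ 1 / 100) :
    |(q ^ 2 / 4 + e - q + 1) / (2 - q) * ((q ^ 2 / 4 + e - q + 2) / (2 - q)) -
      2 * mz q (q ^ 2 / 4 + e) * ((q ^ 2 / 4 + e - q + 1) / (2 - q)) +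
      (mz q (q ^ 2 / 4 + e) ^ 2 - 1 / 4)| ≤ 2 * |e| := by
  have hp : (2 - q) ≠ 0 := by linarith
  have hq0 : q ≠ 0 := by linarith
  have key : (q ^ 2 / 4 + e - q + 1) / (2 - q) * ((q ^ 2 / 4 + e - q + 2) / (2 - q)) -
      2 * mz q (q ^ 2 / 4 + e) * ((q ^ 2 / 4 + e - q + 1) / (2 - q)) +
      (mz q (q ^ 2 / 4 + e) ^ 2 - 1 / 4) =
      e * (e * (1 / (2 - q) + 1 / q) ^ 2 + 1 / (2 - q) ^ 2) := by
    unfold mz
    field_simp
    ring
  rw [key, abs_mul, mul_comm]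
  refine mul_le_mul_of_nonneg_right ?_ (abs_nonneg _)
  have h1 : 0 ≤ 1 / (2 - q) := by apply div_nonneg <;> linarith
  have h2 : 1 / (2 - q) ≤ 1 := by
    rw [div_le_one (by linarith)]
    linarith
  have h3 : 0 ≤ 1 / q := by apply div_nonneg <;> linarith
  have h4 : 1 / q ≤ 2 := by
    rw [div_le_iff₀ (by linarith)]
    linarith
  have h5 : (1 / (2 - q) + 1 / q) ^ 2 ≤ 9 := by nlinarith
  have h6 : 1 / (2 - q) ^ 2 ≤ 1 := by
    rw [div_le_one (by nlinarith)]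
    nlinarith
  have h7 : 0 ≤ 1 / (2 - q) ^ 2 := by positivity
  rw [abs_le] at he ⊢
  have h8 : 0 ≤ (1 / (2 - q) + 1 / q) ^ 2 := sq_nonneg _
  constructor <;> nlinarith

/-- the bound for the moment of `Q` -/
theorem mom_QQ_bound (F : ℂ → ℂ) (M : ℝ) (hF : Cls F M) (q κ x0 y1 b ε : ℝ) (hq : 9 / 10 ≤ q)
    (hq1 : q < 1) (hε : ε ≤ 1 / 100) (hκ : |κ - q ^ 2 / 4| ≤ ε)
    (hy1 : 0 < y1) (hb : y1 ≤ b) (hb1 : b ≤ 1 / 4) :
    |∫ p in RC x0 y1 b, WW F q κ (pt p.1 p.2) * QQ F q κ (pt p.1 p.2)| ≤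
      2 * ε * I1 F q κ y1 b +
        10 * (y1 ^ (κ - q + 1) * PP F (2 - q) y1 + b ^ (κ - q + 1) * PP F (2 - q) b) := by
  rw [mom_QQ F M hF q κ x0 y1 b hq1 hy1 hb]
  have hb0 : 0 < b := lt_of_lt_of_le hy1 hb
  have hB1 := B1_le F M hF (2 - q) y1 hy1 (by linarith)
  have hBb := B1_le F M hF (2 - q) b hb0 (by linarith)
  have hI : 0 ≤ I1 F q κ y1 b := by
    rw [← mom0 F M hF q κ x0 y1 b hy1 hb]
    refine setIntegral_nonneg (measurableSet_Icc.prod measurableSet_Icc) fun p hp => ?_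
    exact WW_nonneg F q κ _ (lt_of_lt_of_le hy1 hp.2.1)
  have hP1 : 0 ≤ PP F (2 - q) y1 := by
    have := abs_nonneg (B1 F (2 - q) y1)
    linarith
  have hPb : 0 ≤ PP F (2 - q) b := by
    have := abs_nonneg (B1 F (2 - q) b)
    linarith
  have hr1 : 0 ≤ y1 ^ (κ - q + 1) := by positivity
  have hrb : 0 ≤ b ^ (κ - q + 1) := by positivity
  obtain ⟨e, rfl⟩ : ∃ e, κ = q ^ 2 / 4 + e := ⟨κ - q ^ 2 / 4, by ring⟩
  rw [show q ^ 2 / 4 + e - q ^ 2 / 4 = e by ring] at hκ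
  have hco := coef_small q e hq hq1 (hκ.trans hε)
  have hmz : |mz q (q ^ 2 / 4 + e)| ≤ 1 / 2 := by
    unfold mz
    have h1 : (q ^ 2 / 4 + e) / q = q / 4 + e / q := by
      field_simp
    rw [h1]
    have h2 : |e / q| ≤ 1 / 50 := by
      rw [abs_div, abs_of_pos (by linarith : (0 : ℝ) < q), div_le_iff₀ (by linarith)]
      linarith [hκ.trans hε]
    rw [abs_le] at h2 ⊢
    constructor <;> linarith [h2.1, h2.2]
  set I := I1 F q (q ^ 2 / 4 + e) y1 b with hIdef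
  set m := mz q (q ^ 2 / 4 + e) with hm
  set r1 := y1 ^ (q ^ 2 / 4 + e - q + 1) with hr1d
  set rb := b ^ (q ^ 2 / 4 + e - q + 1) with hrbd
  set P1 := PP F (2 - q) y1
  set Pb := PP F (2 - q) b
  set b1 := B1 F (2 - q) y1
  set bb := B1 F (2 - q) b
  have hid : (1 / (2 - q) * (r1 * b1 - rb * bb) +
      (q ^ 2 / 4 + e - q + 2) / (2 - q) * (1 / (2 - q) * (r1 * P1 - rb * Pb) +
        (q ^ 2 / 4 + e - q + 1) / (2 - q) * I)) -
      2 * m * (1 / (2 - q) * (r1 * P1 - rb * Pb) + (q ^ 2 / 4 + e - q + 1) / (2 - q) * I) +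
      (m ^ 2 - 1 / 4) * I =
      ((q ^ 2 / 4 + e - q + 1) / (2 - q) * ((q ^ 2 / 4 + e - q + 2) / (2 - q)) -
      2 * m * ((q ^ 2 / 4 + e - q + 1) / (2 - q)) + (m ^ 2 - 1 / 4)) * I +
      (1 / (2 - q) * (r1 * b1 - rb * bb) +
      ((q ^ 2 / 4 + e - q + 2) / (2 - q) - 2 * m) * (1 / (2 - q) * (r1 * P1 - rb * Pb))) := by
    ring
  rw [hid]
  have hinv0 : 0 ≤ 1 / (2 - q) := by apply div_nonneg <;> linarith
  have hinv1 : 1 / (2 - q) ≤ 1 := by
    rw [div_le_one (by linarith)]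
    linarith
  have hx : |r1 * b1 - rb * bb| ≤ 4 * (r1 * P1 + rb * Pb) := by
    refine (abs_sub _ _).trans ?_
    rw [abs_mul, abs_mul, abs_of_nonneg hr1, abs_of_nonneg hrb]
    have := mul_le_mul_of_nonneg_left hB1 hr1
    have := mul_le_mul_of_nonneg_left hBb hrb
    linarith
  have hy : |r1 * P1 - rb * Pb| ≤ r1 * P1 + rb * Pb := by
    have h1 : 0 ≤ r1 * P1 := mul_nonneg hr1 hP1
    have h2 : 0 ≤ rb * Pb := mul_nonneg hrb hPb
    rw [abs_le]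
    constructor <;> linarith
  have hS : 0 ≤ r1 * P1 + rb * Pb := (abs_nonneg _).trans hy
  have h3 : |1 / (2 - q) * (r1 * b1 - rb * bb)| ≤ 4 * (r1 * P1 + rb * Pb) := by
    rw [abs_mul, abs_of_nonneg hinv0]
    calc 1 / (2 - q) * |r1 * b1 - rb * bb| ≤ 1 * |r1 * b1 - rb * bb| :=
          mul_le_mul_of_nonneg_right hinv1 (abs_nonneg _)
      _ ≤ 4 * (r1 * P1 + rb * Pb) := by rw [one_mul]; exact hx
  have h4 : |1 / (2 - q) * (r1 * P1 - rb * Pb)| ≤ r1 * P1 + rb * Pb := by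
    rw [abs_mul, abs_of_nonneg hinv0]
    calc 1 / (2 - q) * |r1 * P1 - rb * Pb| ≤ 1 * |r1 * P1 - rb * Pb| :=
          mul_le_mul_of_nonneg_right hinv1 (abs_nonneg _)
      _ ≤ r1 * P1 + rb * Pb := by rw [one_mul]; exact hy
  have h5 : |(q ^ 2 / 4 + e - q + 2) / (2 - q) - 2 * m| ≤ 6 := by
    have h6 : |(q ^ 2 / 4 + e - q + 2) / (2 - q)| ≤ 3 := by
      rw [abs_div, abs_of_pos (by linarith : (0 : ℝ) < 2 - q), div_le_iff₀ (by linarith)]
      have := abs_le.1 (hκ.trans hε)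
      rw [abs_le]
      constructor <;> nlinarith [this.1, this.2]
    have := abs_le.1 hmz
    have := abs_le.1 h6
    rw [abs_le]
    constructor <;> linarith [this.1, this.2]
  have h7 : |((q ^ 2 / 4 + e - q + 2) / (2 - q) - 2 * m) * (1 / (2 - q) * (r1 * P1 - rb * Pb))| ≤
      6 * (r1 * P1 + rb * Pb) := by
    rw [abs_mul]
    exact mul_le_mul h5 h4 (abs_nonneg _) (by norm_num)
  refine (abs_add_le _ _).trans ?_
  have h8 : |((q ^ 2 / 4 + e - q + 1) / (2 - q) * ((q ^ 2 / 4 + e - q + 2) / (2 - q)) -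
      2 * m * ((q ^ 2 / 4 + e - q + 1) / (2 - q)) + (m ^ 2 - 1 / 4)) * I| ≤ 2 * ε * I := by
    rw [abs_mul, abs_of_nonneg hI]
    refine mul_le_mul_of_nonneg_right (hco.trans ?_) hI
    linarith
  refine (add_le_add h8 ((abs_add_le _ _).trans (add_le_add h3 h7))).trans ?_
  linarith

/-- the end game -/
theorem good_mass_of_rig (CR : ℝ) (hCR : 0 ≤ CR)
    (hrig : ∀ q κ : ℝ, 9 / 10 ≤ q → q < 1 → |κ - q ^ 2 / 4| ≤ 1 / 1000 →
      ∀ (F : ℂ → ℂ) (M : ℝ), Cls F M → ∀ x0 y1 b : ℝ, 0 < y1 → y1 < b → b ≤ 1 / 4 →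
        (1 - 4 * mz q κ ^ 2) *
          (∫ p in RC x0 y1 b, WW F q κ (pt p.1 p.2) * ‖cc F q κ (pt p.1 p.2)‖ ^ 2) ≤
        CR * (∫ p in RC x0 y1 b, WW F q κ (pt p.1 p.2) * |QQ F q κ (pt p.1 p.2)|) +
        CR * (y1 ^ (κ - q + 1) * PP F (2 - q) y1 + b ^ (κ - q + 1) * PP F (2 - q) b)) :
    ∃ η cG CG q0 ε0 : ℝ, 0 < η ∧ η < 1 / 2 ∧ 0 < cG ∧ 0 ≤ CG ∧ 9 / 10 ≤ q0 ∧ q0 < 1 ∧ 0 < ε0 ∧
      ∀ q κ : ℝ, q0 ≤ q → q < 1 → |κ - q ^ 2 / 4| ≤ ε0 →
      ∀ (F : ℂ → ℂ) (M : ℝ), Cls F M → ∀ x0 y1 b : ℝ, 0 < y1 → y1 < b → b ≤ 1 / 4 →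
        cG * I1 F q κ y1 b ≤
          (∫ p in RC x0 y1 b ∩ {p : ℝ × ℝ | ‖cc F q κ (pt p.1 p.2)‖ ≤ 1 / 2 - η},
            WW F q κ (pt p.1 p.2)) +
          CG * (y1 ^ (κ - q + 1) * PP F (2 - q) y1 + b ^ (κ - q + 1) * PP F (2 - q) b) := by
  have hden : 0 < 1000 * (1 + CR) := by positivity
  refine ⟨1 / (1000 * (1 + CR)), 1 / (16 * (1 + CR)), 1000, 9 / 10, 1 / (1000 * (1 + CR)),
    by positivity, ?_, by positivity, by norm_num, le_refl _, by norm_num, by positivity, ?_⟩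
  · rw [div_lt_iff₀ hden]
    nlinarith
  intro q κ hq hq1 hκ F M hF x0 y1 b hy1 hb hb1
  set η : ℝ := 1 / (1000 * (1 + CR)) with hη
  have hη0 : 0 < η := by positivity
  have hη1 : η * (1 + CR) = 1 / 1000 := by
    rw [hη]
    field_simp
  have hη2 : η ≤ 1 / 1000 := by nlinarith
  have hrg := hrig q κ hq hq1 (hκ.trans hη2) F M hF x0 y1 b hy1 hb hb1
  have hmq := mom_QQ_bound F M hF q κ x0 y1 b η hq hq1 (by linarith) hκ hy1 hb.le hb1
  have h0 := mom0 F M hF q κ x0 y1 b hy1 hb.le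
  have hW := cont_WW F M hF q κ
  have hA := cont_AA F M hF
  have hQ := cont_QQ F M hF q κ
  have i0 := rc_integrable (fun z => WW F q κ z) hW x0 y1 b hy1
  have i1 := rc_integrable (fun z => WW F q κ z * QQ F q κ z) (hW.mul hQ) x0 y1 b hy1
  have i2 := rc_integrable (fun z => WW F q κ z * |QQ F q κ z|) (hW.mul hQ.abs) x0 y1 b hy1
  have hRC : MeasurableSet (RC x0 y1 b) := measurableSet_Icc.prod measurableSet_Icc
  have hG := meas_Good F q κ η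
  set S : Set (ℝ × ℝ) := {p : ℝ × ℝ | ‖cc F q κ (pt p.1 p.2)‖ ≤ 1 / 2 - η} with hS
  set X : ℝ := ∫ p in RC x0 y1 b ∩ S, WW F q κ (pt p.1 p.2) with hX
  have i3 : IntegrableOn (S.indicator fun p : ℝ × ℝ => WW F q κ (pt p.1 p.2)) (RC x0 y1 b) :=
    i0.indicator hG
  have hXi : ∫ p in RC x0 y1 b, S.indicator (fun p : ℝ × ℝ => WW F q κ (pt p.1 p.2)) p = X := by
    rw [setIntegral_indicator hG]
  have hI : 0 ≤ I1 F q κ y1 b := by
    rw [← h0]
    refine setIntegral_nonneg hRC fun p hp => ?_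
    exact WW_nonneg F q κ _ (lt_of_lt_of_le hy1 hp.2.1)
  -- int W |c|^2 = int W Q + I / 4
  have hc2 : ∫ p in RC x0 y1 b, WW F q κ (pt p.1 p.2) * ‖cc F q κ (pt p.1 p.2)‖ ^ 2 =
      (∫ p in RC x0 y1 b, WW F q κ (pt p.1 p.2) * QQ F q κ (pt p.1 p.2)) +
        1 / 4 * I1 F q κ y1 b := by
    rw [← h0, ← integral_const_mul, ← integral_add i1 (i0.const_mul _)]
    refine integral_congr_ae (Filter.Eventually.of_forall fun p => ?_)
    simp only [QQ]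
    ring
  have hc2n : 0 ≤ ∫ p in RC x0 y1 b, WW F q κ (pt p.1 p.2) * ‖cc F q κ (pt p.1 p.2)‖ ^ 2 := by
    refine setIntegral_nonneg hRC fun p hp => ?_
    exact mul_nonneg (WW_nonneg F q κ _ (lt_of_lt_of_le hy1 hp.2.1)) (by positivity)
  -- the pointwise bound |Q| ≤ Q + 2 η + (1/2) 1_Good
  have hpt : ∫ p in RC x0 y1 b, WW F q κ (pt p.1 p.2) * |QQ F q κ (pt p.1 p.2)| ≤
      (∫ p in RC x0 y1 b, WW F q κ (pt p.1 p.2) * QQ F q κ (pt p.1 p.2)) +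
        2 * η * I1 F q κ y1 b + 1 / 2 * X := by
    have hl := int_lin3 (volume.restrict (RC x0 y1 b)) _ _ _ (2 * η) (1 / 2) i1 i0 i3
    rw [← hXi, ← h0, ← hl]
    refine setIntegral_mono_on i2 ((i1.add (i0.const_mul _)).add (i3.const_mul _)) hRC
      fun p hp => ?_
    have hz : 0 < (pt p.1 p.2).im := lt_of_lt_of_le hy1 hp.2.1
    have hw := WW_nonneg F q κ _ hz
    by_cases hg : p ∈ S
    · rw [indicator_of_mem hg]
      have h1 : |QQ F q κ (pt p.1 p.2)| ≤ QQ F q κ (pt p.1 p.2) + 1 / 2 := by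
        have : -(1 / 4) ≤ QQ F q κ (pt p.1 p.2) := by
          unfold QQ
          have := sq_nonneg ‖cc F q κ (pt p.1 p.2)‖
          linarith
        rw [abs_le]
        constructor <;> linarith
      have h2 := mul_le_mul_of_nonneg_left h1 hw
      have h3 : 0 ≤ 2 * η * WW F q κ (pt p.1 p.2) := by positivity
      nlinarith
    · rw [indicator_of_notMem hg]
      have h1 : -η ≤ QQ F q κ (pt p.1 p.2) := by
        have h2 : 1 / 2 - η < ‖cc F q κ (pt p.1 p.2)‖ := by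
          simpa [hS] using hg
        have h3 : 0 < 1 / 2 - η := by linarith
        unfold QQ
        nlinarith
      have h4 : |QQ F q κ (pt p.1 p.2)| ≤ QQ F q κ (pt p.1 p.2) + 2 * η := by
        rw [abs_le]
        constructor <;> linarith
      have h5 := mul_le_mul_of_nonneg_left h4 hw
      nlinarith
  have hmz : 1 / 2 ≤ 1 - 4 * mz q κ ^ 2 := by
    have he : |κ - q ^ 2 / 4| ≤ 1 / 100 := hκ.trans (by linarith)
    have h1 : mz q κ = 1 / 2 - q / 4 - (κ - q ^ 2 / 4) / q := by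
      unfold mz
      field_simp
      ring
    have h2 : |(κ - q ^ 2 / 4) / q| ≤ 1 / 50 := by
      rw [abs_div, abs_of_pos (by linarith : (0 : ℝ) < q), div_le_iff₀ (by linarith)]
      linarith
    rw [abs_le] at h2
    have h3 : 0 ≤ mz q κ := by rw [h1]; linarith [h2.1, h2.2]
    have h4 : mz q κ ≤ 3 / 10 := by rw [h1]; linarith [h2.1, h2.2]
    nlinarith
  set Y : ℝ := y1 ^ (κ - q + 1) * PP F (2 - q) y1 + b ^ (κ - q + 1) * PP F (2 - q) b with hY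
  have hY0 : 0 ≤ Y := by
    have hb0 : 0 < b := hy1.trans hb
    have hB1 := B1_le F M hF (2 - q) y1 hy1 (by linarith)
    have hBb := B1_le F M hF (2 - q) b hb0 (by linarith)
    have hP1 : 0 ≤ PP F (2 - q) y1 := by
      have := abs_nonneg (B1 F (2 - q) y1)
      linarith
    have hPb : 0 ≤ PP F (2 - q) b := by
      have := abs_nonneg (B1 F (2 - q) b)
      linarith
    positivity
  have hX0 : 0 ≤ X := by
    refine setIntegral_nonneg (hRC.inter hG) fun p hp => ?_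
    exact WW_nonneg F q κ _ (lt_of_lt_of_le hy1 hp.1.2.1)
  set J : ℝ := I1 F q κ y1 b with hJ
  set T : ℝ := ∫ p in RC x0 y1 b, WW F q κ (pt p.1 p.2) * QQ F q κ (pt p.1 p.2) with hT
  set U : ℝ := ∫ p in RC x0 y1 b, WW F q κ (pt p.1 p.2) * |QQ F q κ (pt p.1 p.2)| with hU
  rw [hc2] at hrg hc2n
  have hT' := abs_le.1 hmq
  have e1 : 1 / 2 * (T + 1 / 4 * J) ≤ CR * U + CR * Y :=
    (mul_le_mul_of_nonneg_right hmz hc2n).trans hrg
  have e2 : U ≤ 4 * η * J + 10 * Y + 1 / 2 * X := by linarith [hT'.2]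
  have e3 : CR * U ≤ CR * (4 * η * J + 10 * Y + 1 / 2 * X) := mul_le_mul_of_nonneg_left e2 hCR
  -- everything together
  have e4 : 1 / 8 * J ≤ η * J + 5 * Y + CR * (4 * η * J + 10 * Y + 1 / 2 * X) + CR * Y := by
    linarith [hT'.1]
  have e5 : CR * η ≤ 1 / 1000 := by nlinarith
  have e6 : 1 / 16 * J ≤ (5 + 11 * CR) * Y + 1 / 2 * CR * X := by
    have : CR * η * J ≤ 1 / 1000 * J := mul_le_mul_of_nonneg_right e5 hI
    have : η * J ≤ 1 / 1000 * J := mul_le_mul_of_nonneg_right hη2 hI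
    nlinarith
  have hC1 : 0 < 1 + CR := by linarith
  have e7 : 1 / 16 * J ≤ (1 + CR) * (X + 1000 * Y) := by
    have : 0 ≤ CR * X := mul_nonneg hCR hX0
    have : 0 ≤ CR * Y := mul_nonneg hCR hY0
    nlinarith
  have e8 : 1 / (16 * (1 + CR)) * J = (1 / 16 * J) / (1 + CR) := by
    field_simp
  rw [e8, div_le_iff₀ hC1]
  linarith

end H26.EC
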